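import Pool.Agent.V7H2.HT.Prod

/-!
# The standard conjecture of Hodge type for products of Lefschetz maps

A *Lefschetz map* `F : Y ⟶ X` for a polarization `D` of `X` is a morphism such that
`dim Y ≤ dim X`, the direct image of the fundamental cycle of `Y` is a positive rational multiple of
`D ^ (dim X - dim Y)`, and `F^*` is surjective in degrees smaller than `dim Y`. Examples are
identities, the inclusions of smooth complete intersections of divisors in the linear systems
`|m D|`, the cyclic coverings of `X` branched along smooth divisors in `|m D|`, and all composites of
such maps. The varieties `X` are supposed to satisfy the hard Lefschetz theorem and the Lefschetz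
standard conjecture (for instance they can be abelian varieties). Let
`F = F_1 × ... × F_r : Y = Y_1 × ... × Y_r ⟶ X = X_1 × ... × X_r` be a product of such maps, with the
product polarization `D` on `X` and the polarization `E = F^* D` on `Y` (`IsLefschetzProduct`). We
prove:

* `Y` satisfies the hard Lefschetz theorem and the Kunneth and Lefschetz standard conjectures;
* if the standard conjecture of Hodge type holds for `X` and `D`, then on `Y` it holds, and
  homological and numerical equivalence coincide, for all cycles whose class is the pull-back of a
  cohomology class (not necessarily algebraic) on `X`; and the whole conjecture for `Y` is equivalent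
  to the positivity for the primitive cycles `z` with `F_* z = 0`;
* so if there are no nonzero classes of such cycles (for instance if no product of Frobenius
  eigenvalues on the vanishing cohomology of a nonempty set of factors and on the cohomology of
  the other factors is a root of unity times a power of `q`), then the conjecture of Hodge type
  for `X` implies the one for `Y`;
* in particular this is so for `Y × Z ⟶ X × Z` if the dimension of `Y` is odd and `Z` has no
  cohomology in odd degrees.

The intermediate products of the `Y_i` and `X_j` need not satisfy anything, and nothing is assumed
about algebraic cycles on `Y`. The point of the proof: the pull-back `F^*` is not compatible with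
the Lambda operators, but the positive form `tr (a * star b)` of `Y`, pulled back to `X`, is the sum
of the forms of `X` on the components of the Lefschetz decomposition with respect to all the
factors, with nonnegative rational coefficients.
-/

open CategoryTheory AlgebraicGeometry

universe u v

namespace Pool.Agent.V7H2.Retired.LefschetzProducts

open Pool.Agent.H914 Pool.Agent.H914.VarClass Pool.Agent.H914.VarClass.Obj Pool.Agent.V7H2.HT
  Pool.Agent.H281R3.HT

/-- **The standard conjectures of Lefschetz, Kunneth and Hodge type for products of Lefschetz
maps.** -/
theorem result {k : Type u} [Field k] {𝒱 : VarClass k} {ops : CycleOps 𝒱}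
    (W : WeilCohomology.{u, v} ops) :
    (∀ (P : Polarized 𝒱) (Y : 𝒱.Obj) (F : Y ⟶ P.X), IsLefschetzProduct W P Y F →
      LefschetzConclusions W Y (ops.pull F P.D) ∧
        (HodgeType W P.X P.D → HodgeConclusions W F (ops.pull F P.D))) ∧
    ∀ (P Q : Polarized 𝒱) (Y : 𝒱.Obj) (F : Y ⟶ P.X), SatisfiesLefschetz W P →
      SatisfiesLefschetz W Q → IsLefschetzMap W F P.D → Odd Y.dim →
      (∀ i, Odd i → W.gr Q.X i = ⊥) → HodgeType W (P.prod ops Q).X (P.prod ops Q).D →
      HodgeType W (Y.prod Q.X) ((Polarized.mk Y (ops.pull F P.D)).prod ops Q).D ∧
        HomEqNum W (Y.prod Q.X) :=
  ⟨fun _ _ _ h => ⟨h.lefschetz, h.hodge⟩, fun _ _ _ _ hP hQ hF hodd hZ hH =>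
    hodge_odd_even hF hP.divisor hP.hardLefschetz hP.lefschetzB hodd hQ.divisor hQ.hardLefschetz
      hQ.lefschetzB hZ hH⟩

end Pool.Agent.V7H2.Retired.LefschetzProducts
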